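import Pool.Agent.Helper92.Ch.Final

/-!
For every fixed `n ≥ 3` the cocycle Cheeger constants (dimension one, permutation coefficients) of
the Steinberg presentations of `SL_n(F_p)` are bounded below by a positive constant independent of
the prime `p`.
-/

set_option autoImplicit false

open Pool.Agent.Helper92.Ch

theorem Pool.Agent.Results.MP_bad20e_al.UniformCheeger.result :
    ∀ n : ℕ, 3 ≤ n → ∃ c : ℝ, 0 < c ∧
      ∀ (p : ℕ) [Fact p.Prime], c ≤ cheeger (steinberg n p) :=
  uniform_cheeger
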